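import Pool.Agent.W997.TS.Asym

/-!
# Small branching programs for tree evaluation have to read almost all variables

Tree evaluation with fan-in `d`, height `n` and alphabet `Fin k` is computed in time `O(d ^ n)` by
the obvious recursion, which reads one variable per node, and needs space `n log k`.  We show that
every deterministic branching program which is much smaller than that reads almost all of the
`≈ d ^ n * k ^ d` variables on average, no matter how long it runs, and even if it only has to agree
with the lowest bit of the value of the root on slightly more than half of the inputs.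

Proof idea.  An input is a background table `g` overwritten at the entries which belong to the
true values `z` of the children; for a uniform random input `g` and `z` are independent and uniform.
If at every inner node of a subtree only `t` different entries are read, then a state of the program
from which a set `U` of nodes is live (the parent is evaluated before the node is evaluated again)
determines the values of the nodes of `U`, up to `t` possibilities for each parent of a node in
`U`.  Immediately after the step in which the last path of the subtree is blocked by live nodes,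
there are about `(d - 1) * h` live nodes, grouped as siblings along a path.  Hence every subtree
of height `h` contains, for most inputs, a node at which many entries are read.
-/

set_option autoImplicit false

namespace Pool.Agent.Results.MP_4e849b_lc.FewVariablesRead

open Pool.Agent.W997.TS Finset

/-- (1) A deterministic branching program of size at most `k * s ^ h` which outputs the lowest bit
of the value of the root for a fraction of at least `1 / 2 + γ` of the inputs reads on average at
least `γ ^ 2 * d ^ (n - h) * k ^ (d - 1) / (4 * d * s)` different variables.
(2) Consequently, for all `δ > 0` there are `d`, `ε`, `c` such that for `k = d ^ n` and all large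
`n`, with `N` the number of variables: a program of size `exp (4 * log² N)` computes the bit in time
`N ^ δ` on all inputs, but every program of size at most `exp (ε * log² N)` which agrees with it on
a fraction of at least `1 / 2 + N ^ (-c)` of the inputs reads on average at least `N ^ (1 - δ)`
different variables. -/
theorem result :
    (∀ (d k n h s : ℕ) (γ : ℝ), 0 < γ → 2 ≤ d → 1 ≤ h → h ≤ n → Even k → d ^ h ≤ k →
      4 * (n : ℝ) ≤ γ ^ 2 * k → 1 ≤ s →
      ∀ (P : DBP (Var d k n) k) (T M : Input d k n → ℕ) (R : Input d k n → Bool),
        P.size ≤ k * s ^ h →
        (∀ x, P.Run x (T x) (M x) (R x)) →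
        (1 / 2 + γ) * Fintype.card (Input d k n) ≤
          (univ.filter (fun x => R x = bit (rootValue x))).card →
        γ ^ 2 * (d : ℝ) ^ (n - h) * (k : ℝ) ^ (d - 1) * Fintype.card (Input d k n) ≤
          4 * d * s * ∑ x, (M x : ℝ)) ∧
    (∀ δ : ℝ, 0 < δ → ∃ d : ℕ, 2 ≤ d ∧ ∃ ε : ℝ, 0 < ε ∧ ∃ c : ℝ, 0 < c ∧ ∃ n₀ : ℕ,
      ∀ n : ℕ, n₀ ≤ n → ∀ N : ℕ, N = Fintype.card (Var d (d ^ n) n) →
        (∃ P : DBP (Var d (d ^ n) n) (d ^ n),
          Real.log P.size ≤ 4 * (Real.log N) ^ 2 ∧
          ∀ x : Input d (d ^ n) n, ∃ t m : ℕ, (t : ℝ) ≤ (N : ℝ) ^ δ ∧
            P.Run x t m (bit (rootValue x))) ∧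
        (∀ (P : DBP (Var d (d ^ n) n) (d ^ n)) (T M : Input d (d ^ n) n → ℕ)
          (R : Input d (d ^ n) n → Bool),
          Real.log P.size ≤ ε * (Real.log N) ^ 2 →
          (∀ x, P.Run x (T x) (M x) (R x)) →
          (1 / 2 + (N : ℝ) ^ (-c)) * Fintype.card (Input d (d ^ n) n) ≤
            (univ.filter (fun x => R x = bit (rootValue x))).card →
          (N : ℝ) ^ (1 - δ) * Fintype.card (Input d (d ^ n) n) ≤ ∑ x, (M x : ℝ))) := by
  refine ⟨?_, ?_⟩
  · intro d k n h s γ hγ hd hh hhn hk hdk hnk hs P T M R hS hrun hag
    exact tradeoff d k n h s γ hγ hd hh hhn hk hdk hnk hs P hS T M R hrun hag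
  · intro δ hδ
    obtain ⟨d, hd, ε, hε, c, hc, n₀, h⟩ := threshold δ hδ
    refine ⟨d, hd, ε, hε, c, hc, n₀, ?_⟩
    intro n hn N hN
    subst hN
    exact h n hn

end Pool.Agent.Results.MP_4e849b_lc.FewVariablesRead
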