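import Pool.Agent.W985.QP.MachTrees

/-!
# A real-time deterministic pushdown language and programs which read each letter `k` times

One language which is accepted by a one-way real-time deterministic pushdown automaton (one head,
which moves to the right in each step), and for which nondeterministic branching programs that read
each letter at most `k` times need `n ^ (c_k * log n)` nodes, `c_k = 2 ^ (-21 (k + 1))`, also if they
have to accept only a part of the hard words. Without the condition on the number of reads the
inclusion of this language in logarithmic space would give programs of polynomial size.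
-/

namespace Pool.Agent.Results.MP_4e849b_lc.RealTimePushdownReadK

open Pool.Agent.W985.RK (NBP)
open Pool.Agent.H561R2.CF (RDPDA)

/-- There is a real-time deterministic pushdown automaton `M` with the following property. Let `k` and
`n` be numbers with `log₂ n ≥ C`, where `C = 2 ^ (21 (k + 1))`. There is a nonempty set `F` of words of
length `n` accepted by `M` such that for each nondeterministic branching program `B` with `S` nodes
which reads each letter at most `k` times on every walk and accepts only words accepted by `M`: if `G`
is the number of words in `F` accepted by `B`, then `G ^ C * n ^ (log₂ n) ≤ (S * |F|) ^ C`, that is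
`S ≥ (G / |F|) * n ^ (log₂ n / C)`. In particular, a program of this kind which accepts exactly the
words of length `n` accepted by `M` has at least `n ^ (log₂ n / C)` nodes. -/
theorem result : ∃ (Q Γ A : Type) (_ : Fintype Q) (_ : Fintype Γ) (_ : Fintype A)
    (M : RDPDA Q Γ A), ∀ k n : ℕ, 2 ^ (21 * (k + 1)) ≤ Nat.log 2 n →
      ∃ F : Finset (Fin n → A), F.Nonempty ∧ (∀ w ∈ F, List.ofFn w ∈ M.language) ∧
        ∀ (S : ℕ) (B : NBP n A S), B.ReadTimes k →
          (∀ w, B.Accepts w → List.ofFn w ∈ M.language) →
          {w : Fin n → A | w ∈ F ∧ B.Accepts w}.ncard ^ 2 ^ (21 * (k + 1)) * n ^ Nat.log 2 n ≤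
            (S * F.card) ^ 2 ^ (21 * (k + 1)) := by
  classical
  refine ⟨Pool.Agent.W985.QP.PD.St, Bool, Pool.Agent.W985.QP.PD.Lt, inferInstance, inferInstance,
    inferInstance, Pool.Agent.W985.QP.PD.mach, fun k n hn => ?_⟩
  obtain ⟨F, h1, h2, h3⟩ := Pool.Agent.W985.QP.hard Pool.Agent.W985.QP.PD.hasTrees k n hn
  refine ⟨F, h1, h2, fun S B hB hL => ?_⟩
  have h5 : {w : Fin n → Pool.Agent.W985.QP.PD.Lt | w ∈ F ∧ B.Accepts w} =
      ↑(F.filter fun w => B.Accepts w) := by
    ext w
    simp
  rw [h5, Set.ncard_coe_finset]
  exact h3 S B hB hL

end Pool.Agent.Results.MP_4e849b_lc.RealTimePushdownReadK
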