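import Pool.Agent.W953.SP.Gen
import Pool.Agent.W953.SP.Net

/-!
# Span programs in rounds

Path systems are complete for P. A computation in rounds asks in each round several monotone span
programs, simultaneously, and goes on depending arbitrarily on all answers. (A NOT gate is a round
with one test.) The span programs may be over different fields. Monotone undirected switching
networks, the monotone version of L, are a special case: they are span programs of the same size
over every field. The number of rounds is arbitrary; what counts is the product of the numbers
`w + 1`, where `w` is the number of tests of a round.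

The underlying function is the OR of `M` disjoint copies of a lifted pebbling function on the graphs
of Paul, Tarjan and Celoni. A chain of rejected inputs is built copy by copy: if in some copy no
rejected input changes the answers then the computation is, on this copy, the OR of few monotone
span programs over various fields. By a rank argument every one of them accepts only few of the
minimal positive inputs.
-/

set_option autoImplicit false

namespace Pool.Agent.Results.MP_4e849b_lc.SpanProgramRounds

open Pool.Agent.W953.SP Pool.Agent.H540R2

/-- the number of ones of an input -/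
def ones {n : ℕ} (x : Fin n → Bool) : ℕ := (Finset.univ.filter (fun i => x i = true)).card

/-- the function `D (log D) ^ e` -/
def near (e D : ℕ) : ℕ := (D + 1) * (Nat.log 2 (D + 1) + 6) ^ e

/-- Let `p` be a computation in rounds of monotone span programs, and let the total size of the
tests on each of its paths be less than `4 ^ (D + 1)`.
(1) If `p` decides for all path systems on `E` whether `g` is derivable, then
`|E| ≤ 2 ^ 19 near 4 D cost(p)`.
(2) If `|E| > M 2 ^ 19 near 4 D` then there is a set of at most `M 2 ^ 42 near 8 D` axioms and rules
such that `M < cost(p)` if `p` decides this for all path systems contained in the set.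
(3) Let `U = M 2 ^ 42 near 8 D` with `M ≥ 1`. For all `r` there is a circuit `C` with `U + r`
variables and at most `3 U` gates, none of them a NOT gate, such that for all `k ≤ r` no such `p`
with `cost(p) ≤ M` agrees with `C` on all inputs with at least `k` and at most `k + U` ones. (For
`r = 0` these are all inputs.)
(4) Every monotone undirected switching network is equivalent to a monotone span program of the
same size, over every field. -/
theorem result (D : ℕ) :
    (∀ (E : Type) [Fintype E] (g : E) (p : Prog (MSP (PS E))),
      p.load (spTests _) < 4 ^ (D + 1) →
      (∀ v : PS E → Bool, p.Acc (spTests _) v ↔ Solv v g) →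
      Fintype.card E ≤ 2 ^ 19 * near 4 D * p.cost) ∧
    (∀ (M : ℕ) (E : Type) [Fintype E] (g : E), M * (2 ^ 19 * near 4 D) < Fintype.card E →
      ∃ H : Set (PS E), H.ncard ≤ M * (2 ^ 42 * near 8 D) ∧
        ∀ p : Prog (MSP (PS E)), p.load (spTests _) < 4 ^ (D + 1) →
          (∀ v : PS E → Bool, (∀ i, v i = true → i ∈ H) → (p.Acc (spTests _) v ↔ Solv v g)) →
          M < p.cost) ∧
    (∀ M r U : ℕ, 1 ≤ M → U = M * (2 ^ 42 * near 8 D) →
      ∃ C : Circuit (U + r), C.Monotone ∧ C.size ≤ 3 * U ∧
        ∀ k ≤ r, ∀ p : Prog (MSP (Fin (U + r))), p.cost ≤ M → p.load (spTests _) < 4 ^ (D + 1) →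
          ∃ x, k ≤ ones x ∧ ones x ≤ k + U ∧ ¬ (p.Acc (spTests _) x ↔ C.eval x = true)) ∧
    ∀ (I : Type) (N : Net I) (F : Type) [Field F], ∃ P : MSP I, P.F = F ∧ P.size = N.size ∧
      ∀ x, P.Acc x ↔ N.Acc x := by
  have e1 : gno D = 2 ^ 19 * near 4 D := by unfold gno near; ring
  have e2 : W953.PT.vno D = 2 ^ 42 * near 8 D := by unfold W953.PT.vno near; ring
  refine ⟨fun E _ g p hp h => ?_, fun M E _ g hE => ?_, fun M r U hM hU => ?_,
    fun I N F _ => ⟨N.toMSP F, rfl, rfl, N.toMSP_acc F⟩⟩
  · rw [← e1]
    exact gen_bound D E g p hp h
  · rw [← e1] at hE
    rw [← e2]
    exact gen_host D M E g hE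
  · rw [← e2] at hU
    exact hard_circ D M r U hM hU

end Pool.Agent.Results.MP_4e849b_lc.SpanProgramRounds
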