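import Pool.Agent.W953.NB.DTree

/-!
# P and L: few tests on few slices

If P = L, or only P/poly = L/poly, then small circuits have undirected switching networks of
polynomial size in which the edges are labelled by literals. Here it is shown that this is
equivalent to its versions for monotone functions in which the networks are monotone, on a constant
number `w + 1` of consecutive slices; and for decision trees of depth `t` whose tests and leaves are
monotone networks (`t` NOT gates) on `2 ^ t (w + 1)` consecutive slices; in particular for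
`log n - K` tests on all inputs, for every constant `K`.

The two main steps: (1) let `g` agree with the monotone function `f` on the slices
`k, ..., k + w` and be `0` below, and let `h` agree with `f` on the slice `k + w + 1` and be `0`
below. Then `h(x) ∨ Th_{n - k - w} (g (x with x_1 := 0), ..., g (x with x_n := 0))` agrees with `f`
on all these slices. (2) Undirected networks over literals are closed under complement (Nisan,
Ta-Shma), which is also proved here.
-/

set_option autoImplicit false

namespace Pool.Agent.Results.MP_4e849b_lc.TestsOnSlices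

open Pool.Agent.H540R2 Pool.Agent.W953.SP Pool.Agent.W953.NB

variable {n : ℕ}

/-- the number of ones of an input -/
def ones (x : Fin n → Bool) : ℕ := (Finset.univ.filter (fun i => x i = true)).card

/-- the variables and their negations -/
def literals (x : Fin n → Bool) : Fin (n + n) → Bool := Fin.append x (fun i => !(x i))

/-- The circuit (which may have NOT gates) computes a monotone function. -/
def MonotoneFunction (C : Circuit n) : Prop :=
  ∀ x y : Fin n → Bool, (∀ i, x i ≤ y i) → C.eval x ≤ C.eval y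

/-- P/poly = L/poly: the circuits with at most `S` gates and `n ≤ S` variables have equivalent
undirected networks over the literals of size `S ^ O(1)`. -/
def PolyNetworks : Prop :=
  ∃ c : ℕ, ∀ (S n : ℕ) (C : Circuit n), 2 ≤ S → n ≤ S → C.size ≤ S →
    ∃ N : Net (Fin (n + n)), N.size ≤ S ^ c ∧ ∀ x, N.Acc (literals x) ↔ C.eval x = true

/-- For every circuit `C` with at most `S` gates and `n ≤ S` variables that computes a monotone
function, and all `k` and `t`, there is a decision tree of depth at most `t` and size `S ^ O(1)`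
with monotone networks as tests that agrees with `C` on the `2 ^ t (w + 1)` slices from `k` on. -/
def TestsAndSlices (w : ℕ) : Prop :=
  ∃ c : ℕ, ∀ (S n : ℕ) (C : Circuit n), 2 ≤ S → n ≤ S → C.size ≤ S → MonotoneFunction C →
    ∀ k t : ℕ, ∃ p : DTree (Net (Fin n)), p.depth ≤ t ∧ p.size (netTests _) ≤ S ^ c ∧
      ∀ x, k ≤ ones x → ones x < k + 2 ^ t * (w + 1) → (p.Acc (netTests _) x ↔ C.eval x = true)

/-- The same with depth `log n - K` on all inputs. -/
def FewTests (K : ℕ) : Prop :=
  ∃ c : ℕ, ∀ (S n : ℕ) (C : Circuit n), 2 ≤ S → n ≤ S → C.size ≤ S → MonotoneFunction C →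
    ∃ p : DTree (Net (Fin n)), p.depth ≤ Nat.log 2 n - K ∧ p.size (netTests _) ≤ S ^ c ∧
      ∀ x, p.Acc (netTests _) x ↔ C.eval x = true

/-- For every circuit `C` without NOT gates, with at most `S` gates and `n ≤ S` variables, and all
`k`, there is a decision tree of depth at most `t n` and size `S ^ O(1)` with monotone networks as
tests that agrees with `C` on the `w n + 1` slices from `k` on. -/
def SomeTestsSomeSlices (t w : ℕ → ℕ) : Prop :=
  ∃ c : ℕ, ∀ (S n : ℕ) (C : Circuit n), 2 ≤ S → n ≤ S → C.size ≤ S → C.Monotone →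
    ∀ k : ℕ, ∃ p : DTree (Net (Fin n)), p.depth ≤ t n ∧ p.size (netTests _) ≤ S ^ c ∧
      ∀ x, k ≤ ones x → ones x ≤ k + w n → (p.Acc (netTests _) x ↔ C.eval x = true)

lemma toTree {t : ℕ} {f : BF n} {s : ℕ} (h : und.TA t f s) :
    ∃ p : DTree (Net (Fin n)), p.depth ≤ t ∧ p.size (netTests _) ≤ s ∧
      ∀ x, p.Acc (netTests _) x ↔ f x = true :=
  tree_of_TA (𝒯 := netTests (Fin n)) (fun _ _ h => h) h

open Classical in
lemma ofTree (p : DTree (Net (Fin n))) {t s : ℕ} (h1 : p.depth ≤ t)
    (h2 : p.size (netTests _) ≤ s) :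
    und.TA t (fun x : Fin n → Bool => decide (p.Acc (netTests _) x)) s :=
  TA_of_tree (𝓜 := und) (𝒯 := netTests (Fin n)) (fun P => ⟨P, le_rfl, fun x => by
    rw [decide_eq_true_iff]; rfl⟩) p t s h1 h2

/-- The following are equivalent: P/poly = L/poly; for every constant `w` and all `t`, decision
trees of depth `t` with monotone networks are enough on `2 ^ t (w + 1)` slices (for monotone
functions); for every constant `K`, such trees of depth `log n - K` are enough on all inputs; for
some functions `t` and `w`, such trees of depth `t n` are enough on `w n + 1` slices, for circuits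
without NOT gates. -/
theorem result :
    List.TFAE [PolyNetworks, ∀ w : ℕ, TestsAndSlices w, ∀ K : ℕ, FewTests K,
      ∃ t w : ℕ → ℕ, SomeTestsSomeSlices t w] := by
  classical
  have hT := tfae (𝓐 := und) (𝓑 := circB) (by norm_num) und_compl
  have hT1 : Poly und circB → ∀ w, Windows und circB w := (hT.out 0 1).mp
  have hT2 : Poly und circB → ∀ K, Few und circB K := (hT.out 0 2).mp
  have hT3 : (∃ t w : ℕ → ℕ, Some' und circB t w) → Poly und circB := (hT.out 0 3).mpr
  have h1 : Poly und circB → PolyNetworks := by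
    rintro ⟨c, hc⟩
    refine ⟨c, fun S n C hS hn hC => ?_⟩
    obtain ⟨Q, ⟨N, hN, hNQ⟩, hQ⟩ := hc S n C.eval hS hn ⟨C, hC, fun _ => rfl⟩
    exact ⟨N, hN, fun x => by rw [hNQ]; exact Iff.of_eq (congrArg (· = true) (hQ x))⟩
  have h1' : PolyNetworks → Poly und circB := by
    rintro ⟨c, hc⟩
    refine ⟨c, fun S n f hS hn ⟨C, hC, hCf⟩ => ?_⟩
    obtain ⟨N, hN, hNx⟩ := hc S n C hS hn hC
    refine ⟨fun y => decide (N.Acc y), ⟨N, hN, fun y => decide_eq_true_iff.symm⟩, fun x => ?_⟩
    rw [← hCf x, Bool.eq_iff_iff, decide_eq_true_iff]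
    exact hNx x
  have h2 : ∀ w, Windows und circB w → TestsAndSlices w := by
    rintro w ⟨c, hc⟩
    refine ⟨c, fun S n C hS hn hC hmon k t => ?_⟩
    obtain ⟨g, hg, hgx⟩ := hc S n C.eval hS hn ⟨C, hC, fun _ => rfl⟩ hmon k t
    obtain ⟨p, p1, p2, p3⟩ := toTree hg
    exact ⟨p, p1, p2, fun x hx1 hx2 => by rw [p3, hgx x hx1 hx2]⟩
  have h3 : ∀ K, Few und circB K → FewTests K := by
    rintro K ⟨c, hc⟩
    refine ⟨c, fun S n C hS hn hC hmon => ?_⟩
    exact toTree (hc S n C.eval hS hn ⟨C, hC, fun _ => rfl⟩ hmon)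
  have h4 : ∀ t w, SomeTestsSomeSlices t w → Some' und circB t w := by
    rintro t w ⟨c, hc⟩
    refine ⟨c, fun S n f hS hn ⟨C, hm, hC, hCf⟩ k => ?_⟩
    obtain ⟨p, p1, p2, p3⟩ := hc S n C hS hn hC hm k
    refine ⟨_, ofTree p p1 p2, fun x hx1 hx2 => ?_⟩
    rw [← hCf x, Bool.eq_iff_iff, decide_eq_true_iff]
    exact p3 x hx1 hx2
  have h24 : (∀ w : ℕ, TestsAndSlices w) → ∃ t w : ℕ → ℕ, SomeTestsSomeSlices t w := by
    intro h
    obtain ⟨c, hc⟩ := h 0
    refine ⟨fun _ => 0, fun _ => 0, c, fun S n C hS hn hC hm k => ?_⟩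
    obtain ⟨p, p1, p2, p3⟩ := hc S n C hS hn hC (fun x y hxy => W953.NW.eval_le hm hxy) k 0
    exact ⟨p, p1, p2, fun x hx1 hx2 => p3 x hx1 (by simpa using Nat.lt_succ_of_le hx2)⟩
  have h34 : (∀ K : ℕ, FewTests K) → ∃ t w : ℕ → ℕ, SomeTestsSomeSlices t w := by
    intro h
    obtain ⟨c, hc⟩ := h 0
    refine ⟨fun n => Nat.log 2 n - 0, fun n => n, c, fun S n C hS hn hC hm k => ?_⟩
    obtain ⟨p, p1, p2, p3⟩ := hc S n C hS hn hC (fun x y hxy => W953.NW.eval_le hm hxy)
    exact ⟨p, p1, p2, fun x _ _ => p3 x⟩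
  tfae_have 1 → 2 := fun h w => h2 w (hT1 (h1' h) w)
  tfae_have 1 → 3 := fun h K => h3 K (hT2 (h1' h) K)
  tfae_have 2 → 4 := h24
  tfae_have 3 → 4 := h34
  tfae_have 4 → 1 := fun ⟨t, w, h⟩ => h1 (hT3 ⟨t, w, h4 t w h⟩)
  tfae_finish

end Pool.Agent.Results.MP_4e849b_lc.TestsOnSlices
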